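import Pool.Agent.P.MP_b7645d_gt.X.Main

set_option autoImplicit false

namespace Pool.Agent.Results.MP_b7645d_gt.Plateau

/-- The isoperimetric profile of the cube equals `1` on `[0.42, 0.58]` in every dimension. -/
theorem result :
    ∀ I : ℕ → ℝ → ENNReal,
      (∀ (d : ℕ) (t : ℝ), I d t =
        ⨅ (E : Set (Fin d → ℝ)) (_ : MeasurableSet E)
          (_ : E ⊆ {x : Fin d → ℝ | ∀ i, x i ∈ Set.Ioo (0:ℝ) 1})
          (_ : MeasureTheory.volume E = ENNReal.ofReal t),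
          ⨆ (φ : (Fin d → ℝ) → (Fin d → ℝ)) (_ : ContDiff ℝ 1 φ)
            (_ : HasCompactSupport φ)
            (_ : tsupport φ ⊆ {x : Fin d → ℝ | ∀ i, x i ∈ Set.Ioo (0:ℝ) 1})
            (_ : ∀ x, ∑ i, (φ x i) ^ 2 ≤ 1),
            ENNReal.ofReal (∫ x in E, ∑ i, fderiv ℝ φ x (Pi.single i 1) i)) →
      ∀ d : ℕ, 1 ≤ d → ∀ t ∈ Set.Icc (21 / 50 : ℝ) (29 / 50), I d t = 1 := by
  intro I hI d hd t ht
  rw [hI]
  exact Pool.Agent.P.MP_b7645d_gt.X.plateau hd ht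

end Pool.Agent.Results.MP_b7645d_gt.Plateau
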