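import Pool.Agent.P.MP_b7645d_gt.H.Step

set_option autoImplicit false

namespace Pool.Agent.Results.MP_b7645d_gt.SmallVolume

/-- For every small volume and every volume near `1`, the isoperimetric profile of the cube in any
dimension is strictly beaten in some higher dimension. -/
theorem result :
    ∀ I : ℕ → ℝ → ENNReal,
      (∀ (d : ℕ) (t : ℝ), I d t =
        ⨅ (E : Set (Fin d → ℝ)) (_ : MeasurableSet E)
          (_ : E ⊆ {x : Fin d → ℝ | ∀ i, x i ∈ Set.Ioo (0:ℝ) 1})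
          (_ : MeasureTheory.volume E = ENNReal.ofReal t),
          ⨆ (φ : (Fin d → ℝ) → (Fin d → ℝ)) (_ : ContDiff ℝ 1 φ)
            (_ : HasCompactSupport φ)
            (_ : tsupport φ ⊆ {x : Fin d → ℝ | ∀ i, x i ∈ Set.Ioo (0:ℝ) 1})
            (_ : ∀ x, ∑ i, (φ x i) ^ 2 ≤ 1),
            ENNReal.ofReal (∫ x in E, ∑ i, fderiv ℝ φ x (Pi.single i 1) i)) →
      ∃ l : ℝ, 0 < l ∧ ∀ t : ℝ, (0 < t ∧ t < l) ∨ (1 - l < t ∧ t < 1) →
        ∀ d : ℕ, 1 ≤ d → ∃ d' : ℕ, d < d' ∧ I d' t < I d t := by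
  intro I hI
  have h : I = Pool.Agent.P.MP_b7645d_gt.Prof := funext fun d => funext fun t => hI d t
  subst h
  exact Pool.Agent.P.MP_b7645d_gt.small_volume

end Pool.Agent.Results.MP_b7645d_gt.SmallVolume
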